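import Pool.Agent.H98.OCV.Stmts3

/-!
# Theorem OCL (OC in codimension `c`, live times): statements of the rows

The time is nearly independent of the line (`TI`); two samples of one line in one window of the
scale `i` are rarely nearer than `2 ^ (-(i + k'))` (`TM`). The bound `e` of `TM` and the thresholds
of the activity are chosen before `k'`.
-/

set_option autoImplicit false

namespace Pool.OCV

open Finset Real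
open Pool.Agent.H49.Ent Pool.Agent.H32.Dense Pool.STK Pool.KAF
open Pool.OCM Line
open Pool.OC (sc)

namespace Dat

variable {c : ℕ} (d : Dat c)

/-- The time is nearly independent of the line given the context. -/
def TI (ι : ℝ) : Prop := Pool.KVA.MI d.P d.T d.L d.B ≤ ι * d.X

/-- The probability that two samples of one line and of one window of the scale `i` are near. -/
noncomputable def nr (k' i : ℕ) : ℝ :=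
  ∑ ω, d.P ω * Pr (d.pk i ω) {v | |d.th (d.T v) - d.th (d.T ω)| < (2 : ℝ) ^ (-((i : ℤ) + k'))}

/-- Near samples are rare, in the mean over the scales. -/
def TM (k' : ℕ) (e : ℝ) : Prop := ∑ i ∈ range d.X, d.nr k' i ≤ e * d.X

end Dat

/-- **Theorem OCL.** -/
def OCLStmt (c : ℕ) : Prop :=
  ∀ c₀ ca p₀ : ℝ, 0 < c₀ → 0 < ca → 0 < p₀ → ∃ x₀ ε η κ π₁ eT : ℝ, 0 < x₀ ∧ 0 < ε ∧ 0 < η ∧
    η ≤ 1 ∧ 0 < κ ∧ κ ≤ 1 ∧ 0 < π₁ ∧ 0 < eT ∧ ∀ A k' : ℕ, ∃ (π₀ ι : ℝ) (X₀ : ℕ), 0 < π₀ ∧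
      0 < ι ∧ ∀ d : Dat c, d.OK A → X₀ ≤ d.X → d.TI ι → d.TM k' eT → d.H2 ι → d.H3 ι →
        d.H4 ca η π₁ → d.H5 c₀ κ π₀ → d.H6b x₀ p₀ ε → d.H7 ι → False

/-- **ONE** with a general coupling: the density of the failures of the coupling is chosen before
the constant `M` of the coupling. -/
def OneMStmt.{v, w} : Prop := ∀ c : ℝ, 0 < c → ∃ C : ℝ, 0 < C ∧ ∀ δ' : ℝ, 0 < δ' →
  ∃ q : ℕ, 0 < q ∧ ∃ δc : ℝ, 0 < δc ∧ ∀ M : ℝ, 1 ≤ M → ∃ δ : ℝ, 0 < δ ∧ ∃ n0 : ℕ,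
  ∀ n : ℕ, n0 ≤ n →
  ∀ (T : Type v) [Fintype T] (E : Type w) [SeminormedAddCommGroup E] [NormedSpace ℝ E]
    (P : ℕ → T → ℝ) (φ : T → E) (ε : ℝ) (F : Finset ℕ), 0 ≤ ε →
    (∀ i < n, ∀ t, 0 ≤ P i t) → (∀ i < n, ∑ t, P i t = 1) →
    (∀ x, x + n / q ≤ 2 * n → c * (n / q : ℕ) ≤ ((nb F (n / q) x).card : ℝ)) →
    (∑ i ∈ range n, ∑ j ∈ range n, (if i + j ∈ F then beta P φ ε i j else 0) ≤ δ * n ^ 2) →
    (∀ A : Finset ℕ, (∀ i ∈ A, i < n ∧ ¬ ∀ t, P (i + 1) t ≤ M * P i t) →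
      (A.card : ℝ) ≤ δc * n) →
    ∑ i ∈ range n, ms (P i) (fun a => C * ε < ‖φ a‖) ≤ δ' * n

/-- **T1.** For typical samples and most scales the window of the next scale carries at least the
part `1 / M` of the window, for every law of the time. -/
def T1Stmt (c : ℕ) : Prop :=
  ∀ δ : ℝ, 0 < δ → ∃ M : ℝ, 1 ≤ M ∧ ∀ κ₂ π₁ : ℝ, 0 < κ₂ → 0 < π₁ → ∃ X₀ : ℕ,
    ∀ (d : Dat c) (A : ℕ), d.OK A → X₀ ≤ d.X →
      Pr d.P {ω | δ * ⌊κ₂ * d.X⌋₊ < (Set.ncard {i : ℕ | ⌊κ₂ * d.X⌋₊ ≤ i ∧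
        i < 2 * ⌊κ₂ * d.X⌋₊ ∧
        Pr (d.pk i ω) {v | d.Ti (i + 1) v = d.Ti (i + 1) ω} < 1 / M} : ℝ)} ≤ π₁

/-- **ACTR**, the threshold of the activity does not depend on the length of the runs. -/
def ACTRLStmt (c : ℕ) : Prop :=
  ∀ ca : ℝ, 0 < ca → ∃ c₂ : ℝ, 0 < c₂ ∧ c₂ ≤ 1 ∧ ∀ η π₁ : ℝ, 0 < η → η ≤ 1 → 0 < π₁ →
    ∃ π₀ : ℝ, 0 < π₀ ∧ ∀ R : ℕ, ∃ (c₁ : ℝ) (k₇ : ℕ), 0 < c₁ ∧ ∀ A : ℕ, ∃ X₀ : ℕ,
      ∀ d : Dat c, d.OK A → X₀ ≤ d.X → d.H4 ca η π₀ →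
        Pr d.P {ω | ∃ i : ℕ, i + 2 * ⌊η * d.X⌋₊ ≤ d.X ∧
          (Set.ncard {j | i ≤ j ∧ j < i + 2 * ⌊η * d.X⌋₊ ∧
            ∀ o ≤ R, d.act c₁ k₇ (j + o) (d.L ω)} : ℝ) < c₂ * (2 * ⌊η * d.X⌋₊ : ℕ)} ≤ π₁

/-- **RELA** for a time nearly independent of the line. -/
def RELALStmt (c : ℕ) : Prop :=
  ∀ (k₇ kz g : ℕ) (c₁ ε : ℝ), 0 < c₁ → 0 < ε → ∃ D₀ : ℝ, ∀ D : ℝ, D₀ ≤ D → ∀ K : ℕ,
    ∃ (r₁ : ℕ) (δ : ℝ) (C : Cov c), 0 < δ ∧ C.Unit ∧ ∀ (A kmax : ℕ) (d : Dat c), d.OK A →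
      d.TI δ → d.H2 δ → d.H3 δ →
      ∀ (R : Type) [Fintype R] (Q : R → ℝ) (w₀ : R → d.Om) (w ρ : Fin c → R → d.Om)
        (M : (d.Vt × d.Tau) × (Fin c → d.Tau) → Fin c → Fin c → ℝ), Sch d Q w₀ w ρ δ →
        (∀ t, ZOK kmax (M t)) → ∀ (k : Fin c) (i j : ℕ),
        mn d Q w₀ ρ M kz K D (Finset.Ico (r₁ + A + kmax) (d.X - (r₁ + A + kmax)))
          (fun v r u => fl (d.pk i (w k v)) (d.pk j (w k v))
            (Bad d (M (xr d w₀ ρ v)) kz g k₇ c₁ r (w k v) (phi d C Q w₀ ρ M v r u))) ≤ ε * d.X ∧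
        mn d Q w₀ ρ M kz K D (Finset.Ico (r₁ + A + kmax) (d.X - (r₁ + A + kmax)))
          (fun v r u => ms (d.pk j (w k v))
            (fun a => Bad d (M (xr d w₀ ρ v)) kz g k₇ c₁ r (w k v)
              (phi d C Q w₀ ρ M v r u) (ρ k v) a)) ≤ ε * d.X ∧
        mn d Q w₀ ρ M kz K D (Finset.Ico (r₁ + A + kmax) (d.X - (r₁ + A + kmax)))
          (fun v r u => ms (d.pk j (w k v))
            (fun a => Bad d (M (xr d w₀ ρ v)) kz g k₇ c₁ r (w k v)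
              (phi d C Q w₀ ρ M v r u) a (ρ k v))) ≤ ε * d.X

/-- **CORE** for live times: there is no scheme of references which is good with positive
probability. -/
def CORELStmt (c : ℕ) : Prop :=
  ∀ c₀ ca : ℝ, 0 < c₀ → 0 < ca → ∃ uu dd : ℝ, 0 < uu ∧ uu ≤ 1 / 8 ∧ 0 < dd ∧
    ∀ (kz : ℕ) (ν q₀ : ℝ), 0 < ν → ν ≤ uu → 0 < q₀ → ∃ η κ π₁ eT : ℝ, 0 < η ∧
      η ≤ 1 ∧ 0 < κ ∧ κ ≤ 1 ∧ 0 < π₁ ∧ 0 < eT ∧ ∀ A k' : ℕ, ∃ (π₀ ι : ℝ) (X₀ : ℕ),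
        0 < π₀ ∧ 0 < ι ∧ ∀ d : Dat c, d.OK A → X₀ ≤ d.X → d.TI ι → d.TM k' eT →
        d.H2 ι → d.H3 ι → d.H4 ca η π₁ → d.H5 c₀ κ π₀ →
        ∀ (R : Type) [Fintype R] (Q : R → ℝ) (w₀ : R → d.Om) (w ρ : Fin c → R → d.Om)
          (kmax : ℕ), Sch d Q w₀ w ρ ι → (kmax : ℝ) ≤ uu * d.X →
          Pr Q (Good d w₀ w ρ ⌊ν * d.X⌋₊ kz kmax dd) < q₀

end Pool.OCV
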