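import Pool.Agent.H98.OCV.Core
import Pool.Agent.H98.OCL.Line

/-!
# OCL: the second half of CORE, assembly (general coupling)
-/

set_option autoImplicit false

namespace Pool.OCV

open Finset Real
open Pool.Agent.H49.Ent Pool.Agent.H32.Dense Pool.STK Pool.KAF
open Pool.OCM Line
open Pool.OC (sc Pr_or)

namespace Core

section

variable {c : ℕ} {d : Dat c}

/-- At one triple (sample of the scheme, row, shift) the covectors of all lines annihilate the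
references. -/
theorem one_tripleM {R : Type} [Fintype R] {Q : R → ℝ} {w₀ : R → d.Om} {w ρ : Fin c → R → d.Om}
    {A kmax n R₀ kz g k₇ K r q h n0 : ℕ} {dd c₁ c₂ C₁ δ δc m ι D₀ e : ℝ} {C : Cov c} {v : R}
    {u : Fin c → Fin (2 ^ d.X)}
    (hok : d.OK A) (hS : Sch d Q w₀ w ρ ι) (hC : C.Unit) (hv : 0 < Q v)
    (hgood : v ∈ Good d w₀ w ρ n kz kmax dd)
    (hone : ∀ n : ℕ, n0 ≤ n → ∀ (P : ℕ → d.Om → ℝ) (φ : d.Om → ℝ) (ε : ℝ) (F : Finset ℕ),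
      0 ≤ ε → (∀ i < n, ∀ t, 0 ≤ P i t) → (∀ i < n, ∑ t, P i t = 1) →
      (∀ x, x + n / q ≤ 2 * n → c₂ / 2 * (n / q : ℕ) ≤ ((nb F (n / q) x).card : ℝ)) →
      (∑ i ∈ range n, ∑ j ∈ range n, (if i + j ∈ F then beta P φ ε i j else 0) ≤ δ * n ^ 2) →
      (∀ A : Finset ℕ, (∀ i ∈ A, i < n ∧ ¬ ∀ t, P (i + 1) t ≤ m * P i t) →
        (A.card : ℝ) ≤ δc * n) →
      ∑ i ∈ range n, ms (P i) (fun a => C₁ * ε < ‖φ a‖) ≤ c₂ / 16 * n)
    (hm : 1 ≤ m) (hn0 : n0 ≤ n) (hn : 0 < n) (hc2 : 0 < c₂) (hh : 0 < h) (h2 : 2 * h ≤ n / q)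
    (hrun : ∀ k, ∀ i, i + 2 * h ≤ d.X → c₂ * (2 * h : ℕ) ≤ (Set.ncard {j | i ≤ j ∧
      j < i + 2 * h ∧ ∀ o ≤ 2 * R₀, d.act c₁ k₇ (j + o) (d.L (w k v))} : ℝ))
    (hr : 5 * n + 2 * R₀ + 1 ≤ r) (hrX : r ≤ d.X)
    (hT1 : ∀ k, (Set.ncard {i : ℕ | n ≤ i ∧ i < 2 * n ∧
      Pr (d.pk i (w k v)) {a | d.Ti (i + 1) a = d.Ti (i + 1) (w k v)} < 1 / m} : ℝ) ≤ δc * n)
    (hT2 : ∀ k, ∑ i ∈ Finset.Ico n (2 * n), Pr (d.pk i (w k v))
      {a | |d.th (d.T a) - d.th (d.T (w k v))| < (2 : ℝ) ^ (-((i : ℤ) + R₀))} ≤ e * n)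
    (hrel : ∀ k, ∑ i ∈ range n, ∑ j ∈ range n,
      fl (d.pk (n + i) (w k v)) (d.pk (n + j) (w k v))
        (Bad d (Mx d kmax (xr d w₀ ρ v)) kz g k₇ c₁ r (w k v)
          (phi d C Q w₀ ρ (Mx d kmax) v r u)) ≤ e * n ^ 2)
    (href1 : ∀ k, ∑ j ∈ range n, ms (d.pk (n + j) (w k v))
      (fun a => Bad d (Mx d kmax (xr d w₀ ρ v)) kz g k₇ c₁ r (w k v)
          (phi d C Q w₀ ρ (Mx d kmax) v r u) (ρ k v) a) ≤ e * n)
    (href2 : ∀ k, ∑ j ∈ range n, ms (d.pk (n + j) (w k v))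
      (fun a => Bad d (Mx d kmax (xr d w₀ ρ v)) kz g k₇ c₁ r (w k v)
          (phi d C Q w₀ ρ (Mx d kmax) v r u) a (ρ k v)) ≤ e * n)
    (hdd : dd ≤ e) (he1 : e ≤ δ / 16) (he2 : e ≤ c₂ / 128) (he0 : 0 ≤ e)
    (k2 : 2 * (R₀ + kz + g + 4 : ℕ) ≤ δ / 2 * n)
    (k5 : 2 * ((R₀ + kz + g + 4 : ℕ) : ℝ) ≤ c₂ / 4 * n)
    (hg : (c : ℝ) * ((C₁ + 1) * (2 : ℝ) ^ (-(g : ℤ))) ≤ 1 / 2) : False := by
  classical
  obtain ⟨hM, hρ1, hfm⟩ := hgood
  have hM := Mx_crd d w₀ ρ hM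
  have hk : ∀ k, |cov d C Q w₀ ρ (Mx d kmax) v r u k| ≤ (C₁ + 1) * (2 : ℝ) ^ (-(g : ℤ)) := by
    intro k
    have hpt := hS.pt v hv k
    have hTk : d.T (w k v) = d.T (w₀ v) := (Prod.ext_iff.mp (Prod.ext_iff.mp hpt).2).2
    have hw : 0 < d.P (w k v) := by
      rw [← hS.lw k]
      exact law_pos hS.law.nonneg (w k) hv
    have hchi : zc (Mx d kmax (xr d w₀ ρ v)) (d.chi (d.T (w k v)) (d.T (ρ k v))) =
        Pi.single k 1 := by
      rw [hTk]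
      exact hM.2 k
    have hfin := lineM (M := Mx d kmax (xr d w₀ ρ v)) (kz := kz) (g := g) (k₇ := k₇) (r := r)
      (c₁ := c₁) (C₁ := C₁) (δ' := c₂ / 16) (δ := δ) (δ₀ := e) (η := e + e)
      (φ := phi d C Q w₀ ρ (Mx d kmax) v r u) (ρ := ρ k v) hok.law hok.hth hw hone hm hn0 hn hc2 hh
      h2 (hrun k) hr hrX (hT1 k)
      (hB_of hok.law hw hn (hT2 k) (by
        rw [hTk]
        exact le_trans (hfm _ hM k) hdd)) (hrel k)
      (by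
        rw [hTk]
        exact hρ1 k)
      (by
        intro i
        rw [hchi]
        have h1 : (1 : ℝ) ≤ 2 ^ kz := one_le_pow₀ (by norm_num)
        by_cases hik : i = k
        · subst hik
          rw [Pi.single_eq_same, abs_one]
          exact h1
        · rw [Pi.single_eq_of_ne hik, abs_zero]
          linarith)
      (href1 k) (href2 k) (by linarith) k2 (by linarith) le_rfl k5
    have hphi : phi d C Q w₀ ρ (Mx d kmax) v r u (ρ k v) =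
        cov d C Q w₀ ρ (Mx d kmax) v r u k := by
      unfold phi
      rw [← hTk, hchi]
      rw [Finset.sum_eq_single k]
      · rw [Pi.single_eq_same, mul_one]
      · intro i _ hik
        rw [Pi.single_eq_of_ne hik, mul_zero]
      · intro hk
        exact absurd (Finset.mem_univ k) hk
    rwa [hphi] at hfin
  have hone' : ∑ k, |cov d C Q w₀ ρ (Mx d kmax) v r u k| = 1 := hC _ _ _ _ _ _ _
  have hle := Finset.sum_le_sum fun k (_ : k ∈ (Finset.univ : Finset (Fin c))) => hk k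
  rw [hone', Finset.sum_const, Finset.card_univ, Fintype.card_fin, nsmul_eq_mul] at hle
  linarith

end

end Core

end Pool.OCV
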