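import Pool.Agent.H98.OCV.Core3
import Pool.Agent.H98.OCL.Core2
import Pool.Agent.H98.OCL.Stmts

/-!
# OCL: CORE from the rows (live times)
-/

set_option autoImplicit false

namespace Pool.OCV

open Finset Real
open Pool.Agent.H49.Ent Pool.Agent.H32.Dense Pool.STK Pool.KAF
open Pool.OCM Line
open Pool.OC (sc Pr_or)

namespace Core

/-- Near samples of typical samples, from the sum over the scales. -/
theorem tm_pr {c : ℕ} {d : Dat c} (hp : IsLaw d.P) {k' n : ℕ} {eT e t : ℝ} (h2n : 2 * n ≤ d.X)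
    (hn : 0 < n) (he : 0 < e) (hTM : d.TM k' eT) (hle : eT * d.X ≤ t * (e * n)) :
    Pr d.P {ω | e * n < ∑ i ∈ Finset.Ico n (2 * n),
      Pr (d.pk i ω) {v | |d.th (d.T v) - d.th (d.T ω)| < (2 : ℝ) ^ (-((i : ℤ) + k'))}} ≤ t := by
  classical
  have hnR : (0 : ℝ) < n := by exact_mod_cast hn
  obtain ⟨f, hf⟩ : ∃ f : ℕ → d.Om → ℝ, f = fun i ω =>
    Pr (d.pk i ω) {v | |d.th (d.T v) - d.th (d.T ω)| < (2 : ℝ) ^ (-((i : ℤ) + k'))} := ⟨_, rfl⟩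
  have hf0 : ∀ i ω, 0 ≤ f i ω := by
    intro i ω
    rw [hf]
    show 0 ≤ Pr (d.pk i ω) {v | |d.th (d.T v) - d.th (d.T ω)| < (2 : ℝ) ^ (-((i : ℤ) + k'))}
    rw [Pool.KAF.Pr_eq]
    refine Finset.sum_nonneg fun v _ => ?_
    split_ifs
    · exact pk_nonneg hp.nonneg i v
    · exact le_rfl
  have h1 : ∑ ω, d.P ω * ∑ i ∈ Finset.Ico n (2 * n), f i ω ≤ eT * d.X := by
    refine le_trans ?_ hTM
    calc ∑ ω, d.P ω * ∑ i ∈ Finset.Ico n (2 * n), f i ω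
        = ∑ i ∈ Finset.Ico n (2 * n), d.nr k' i := by
          simp_rw [Finset.mul_sum]
          rw [Finset.sum_comm]
          refine Finset.sum_congr rfl fun i _ => ?_
          unfold Dat.nr
          rw [hf]
      _ ≤ ∑ i ∈ range d.X, d.nr k' i := by
          refine Finset.sum_le_sum_of_subset_of_nonneg ?_ ?_
          · intro i hi
            rw [Finset.mem_Ico] at hi
            rw [Finset.mem_range]
            omega
          · intro i _ _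
            unfold Dat.nr
            refine Finset.sum_nonneg fun ω _ => mul_nonneg (hp.nonneg ω) ?_
            have := hf0 i ω
            rw [hf] at this
            exact this
  have h2 : Pr d.P {ω | e * n < ∑ i ∈ Finset.Ico n (2 * n), f i ω} * (e * n) ≤ eT * d.X := by
    refine le_trans ?_ h1
    rw [Pool.KAF.Pr_eq, Finset.sum_mul]
    refine Finset.sum_le_sum fun ω _ => ?_
    have h3 : 0 ≤ ∑ i ∈ Finset.Ico n (2 * n), f i ω := Finset.sum_nonneg fun i _ => hf0 i ω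
    by_cases h : ω ∈ {ω | e * n < ∑ i ∈ Finset.Ico n (2 * n), f i ω}
    · rw [if_pos h]
      exact mul_le_mul_of_nonneg_left (le_of_lt h) (hp.nonneg ω)
    · rw [if_neg h, zero_mul]
      exact mul_nonneg (hp.nonneg ω) h3
  have h3 : Pr d.P {ω | e * n < ∑ i ∈ Finset.Ico n (2 * n), f i ω} * (e * n) ≤ t * (e * n) :=
    le_trans h2 hle
  have h4 := le_of_mul_le_mul_right h3 (by positivity)
  rw [hf] at h4
  exact h4

end Core

open Pool.OCV.Core in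
/-- **CORE from the rows**, live times. -/
theorem corel_of' (c : ℕ) (hN : NFRStmt c) (hA : ACTRLStmt c) (hT : T1Stmt c) (hR : RELALStmt c)
    (hO : OneMStmt.{0, 0}) : CORELStmt c := by
  classical
  intro c₀ ca hc₀ hca
  obtain ⟨u, hu, hu1, hN⟩ := hN c₀ hc₀
  obtain ⟨c₂, hc₂, hc₂1, hA⟩ := hA ca hca
  obtain ⟨C₁, hC₁, hO⟩ := hO (c₂ / 2) (by positivity)
  obtain ⟨q, hq, δc, hδc, hO⟩ := hO (c₂ / 16) (by positivity)
  obtain ⟨m, hm, hT⟩ := hT δc hδc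
  obtain ⟨δ, hδ, n0, hO⟩ := hO m hm
  obtain ⟨g, hg⟩ : ∃ g : ℕ, (c : ℝ) * ((C₁ + 1) * (2 : ℝ) ^ (-(g : ℤ))) ≤ 1 / 2 := by
    obtain ⟨g, hg⟩ := pow_unbounded_of_one_lt (2 * ((c : ℝ) * (C₁ + 1))) (one_lt_two (α := ℝ))
    refine ⟨g, ?_⟩
    rw [zpow_neg, zpow_natCast, ← mul_assoc, ← div_eq_mul_inv, div_le_iff₀ (by positivity)]
    linarith
  obtain ⟨e, he⟩ : ∃ e : ℝ, e = min (δ / 16) (c₂ / 128) := ⟨_, rfl⟩
  have he0 : 0 < e := by
    rw [he]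
    exact lt_min (by positivity) (by positivity)
  have he1 : e ≤ δ / 16 := he ▸ min_le_left _ _
  have he2 : e ≤ c₂ / 128 := he ▸ min_le_right _ _
  refine ⟨min (u / 8) (1 / 64), e, lt_min (by positivity) (by norm_num),
    le_trans (min_le_right _ _) (by norm_num), he0, ?_⟩
  intro kz ν q₀ hν hνu hq₀
  have hν64 : ν ≤ 1 / 64 := le_trans hνu (min_le_right _ _)
  have hc1 : (0 : ℝ) < (c : ℝ) + 1 := by positivity
  have hπ₁ : 0 < q₀ / (8 * ((c : ℝ) + 1)) := by positivity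
  have hqR : (1 : ℝ) ≤ q := by exact_mod_cast hq
  have hη : 0 < ν / (8 * (q : ℝ)) := by positivity
  have hη1 : ν / (8 * (q : ℝ)) ≤ 1 := by
    rw [div_le_one (by positivity)]
    linarith
  obtain ⟨π₀', hπ₀', hA⟩ := hA (ν / (8 * q)) (q₀ / (8 * ((c : ℝ) + 1))) hη hη1 hπ₁
  obtain ⟨X₃, hT⟩ := hT ν (q₀ / (8 * ((c : ℝ) + 1))) hν hπ₁
  refine ⟨ν / (8 * q), 1 / 4, π₀', e * ν * (q₀ / (8 * ((c : ℝ) + 1))) / 2, hη, hη1, by norm_num,
    by norm_num, hπ₀', by positivity, ?_⟩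
  intro A R₀
  obtain ⟨c₁, k₇, hc₁, hA⟩ := hA (2 * R₀)
  obtain ⟨X₂, hA⟩ := hA A
  obtain ⟨D₀, hR⟩ := hR k₇ kz g c₁ (q₀ * e * u / (64 * ((c : ℝ) + 1))) hc₁ (by positivity)
  obtain ⟨K, hN⟩ := hN D₀
  obtain ⟨r₁, δR, C, hδR, hCU, hR⟩ := hR D₀ le_rfl K
  obtain ⟨π₀, X₁, hπ₀, hN⟩ := hN (kz + 4) 1 (1 / 4) (q₀ / (8 * ((c : ℝ) + 1))) le_rfl
    (by norm_num) (by norm_num) hπ₁
  obtain ⟨N₁, hN₁⟩ : ∃ N₁ : ℕ, N₁ = n0 + 1 + ⌈4 * ((R₀ + kz + g + 4 : ℕ) : ℝ) / δ⌉₊ +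
    ⌈8 * ((R₀ + kz + g + 4 : ℕ) : ℝ) / c₂⌉₊ := ⟨_, rfl⟩
  refine ⟨π₀, δR,
    X₁ + X₂ + X₃ + (⌈((N₁ : ℝ) + 1) / ν⌉₊ + ⌈8 * (q : ℝ) / ν⌉₊ + 8 * ((r₁ + A) + 2) +
      16 * (R₀ + 2) + 8), hπ₀, hδR, ?_⟩
  intro d hok hX HI HM H2 H3 H4 H5 R _ Q w₀ w ρ kmax hS hk
  by_contra hcon
  rw [not_lt] at hcon
  have hXn : (0 : ℝ) ≤ d.X := Nat.cast_nonneg _
  have hk64 : (kmax : ℝ) ≤ 1 / 64 * d.X :=
    le_trans hk (mul_le_mul_of_nonneg_right (min_le_right _ _) hXn)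
  obtain ⟨z1, z2, z3, z4, z4', z5, z6, z7⟩ := sizes (N₁ := N₁) (a := r₁ + A) (R₀ := R₀) hν hν64 hq
    (show _ ≤ d.X by omega) hk64
  have hX8 : 8 ≤ d.X := by omega
  have hX8' : (0 : ℝ) < d.X := by exact_mod_cast (by omega : 0 < d.X)
  have hQ0 := hS.law.nonneg
  obtain ⟨b, hb⟩ : ∃ b : ℕ, b = ⌊(1 / 4 : ℝ) * d.X⌋₊ := ⟨_, rfl⟩
  obtain ⟨n, hn⟩ : ∃ n : ℕ, n = ⌊ν * d.X⌋₊ := ⟨_, rfl⟩
  obtain ⟨h, hh⟩ : ∃ h : ℕ, h = ⌊ν / (8 * q) * (d.X : ℝ)⌋₊ := ⟨_, rfl⟩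
  rw [← hb] at z4 z4' z5 z6 z7
  rw [← hn] at z1 z3 z6 hcon
  rw [← hh] at z2 z3
  have hnpos : 0 < n := by omega
  have hnR : (0 : ℝ) < n := by exact_mod_cast hnpos
  -- the rows
  have hNd := hN d kmax hok.law (by omega) (by
    rw [one_mul, ← hb]
    have h1 : (kmax : ℝ) ≤ u / 8 * d.X :=
      le_trans hk (mul_le_mul_of_nonneg_right (min_le_left _ _) hXn)
    nlinarith) H5 R _ Q w₀ (xr d w₀ ρ) (Mx d kmax) hS.law hS.l0
    (fun v v' _ _ h => by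
      have := congrArg Prod.fst h
      exact this) (Mx_ok d kmax)
  rw [one_mul, ← hb] at hNd
  have hAd := hA d hok (by omega) H4
  rw [← hh] at hAd
  have hT1 := hT d A hok (by omega)
  rw [← hn] at hT1
  have hT2 := tm_pr (e := e) (t := q₀ / (8 * ((c : ℝ) + 1))) hok.law (show 2 * n ≤ d.X by omega)
    hnpos he0 HM (by
      have h1 : ν * (d.X : ℝ) < n + 1 := by
        rw [hn]
        exact Nat.lt_floor_add_one _
      have h2 : (1 : ℝ) ≤ n := by exact_mod_cast hnpos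
      have h3 : e * (q₀ / (8 * ((c : ℝ) + 1))) * (ν * d.X) ≤
          e * (q₀ / (8 * ((c : ℝ) + 1))) * (2 * n) :=
        mul_le_mul_of_nonneg_left (by linarith) (by positivity)
      calc e * ν * (q₀ / (8 * ((c : ℝ) + 1))) / 2 * d.X =
          e * (q₀ / (8 * ((c : ℝ) + 1))) * (ν * d.X) / 2 := by ring
        _ ≤ e * (q₀ / (8 * ((c : ℝ) + 1))) * (2 * n) / 2 := by linarith
        _ = q₀ / (8 * ((c : ℝ) + 1)) * (e * n) := by ring)
  have hRd := hR A kmax d hok HI H2 H3 R Q w₀ w ρ (Mx d kmax) hS (Mx_ok d kmax)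
  -- the exceptional sets
  set E0 : Set R := {v | ∃ j : ℕ, (j + 2) * b ≤ d.X ∧ ∑ r ∈ Finset.Ico (j * b) ((j + 1) * b),
    wtz Q (fun v => nz (Mx d kmax (xr d w₀ ρ v)) (d.N (w₀ v))) (xr d w₀ ρ) d.X
      (d.X + (kz + 4) + 1 - r) K D₀ v < u * (b : ℕ)} with hE0
  set E1 : Set d.Om := {ω | ∃ i : ℕ, i + 2 * h ≤ d.X ∧
          (Set.ncard {j | i ≤ j ∧ j < i + 2 * h ∧
            ∀ o ≤ 2 * R₀, d.act c₁ k₇ (j + o) (d.L ω)} : ℝ) < c₂ * (2 * h : ℕ)} with hE1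
  set E2 : Set d.Om := {ω | δc * n < (Set.ncard {i : ℕ | n ≤ i ∧
        i < 2 * n ∧
        Pr (d.pk i ω) {v | d.Ti (i + 1) v = d.Ti (i + 1) ω} < 1 / m} : ℝ)} with hE2
  set E3 : Set d.Om := {ω | e * n < ∑ i ∈ Finset.Ico n (2 * n),
        Pr (d.pk i ω) {v | |d.th (d.T v) - d.th (d.T ω)| < (2 : ℝ) ^ (-((i : ℤ) + R₀))}} with hE3
  set G : Set R := Good d w₀ w ρ n kz kmax e with hG
  set Aset : Set R := {v | v ∈ G ∧ v ∉ E0 ∧ ∀ k, w k v ∉ E1 ∧ w k v ∉ E2 ∧ w k v ∉ E3} with hAs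
  have hAset : q₀ / 2 ≤ Pr Q Aset := by
    have a1 : Pr Q G ≤ Pr Q Aset + Pr Q {v | v ∉ Aset ∧ v ∈ G} := by
      refine Pr_or hQ0 fun v _ hv => ?_
      by_cases h1 : v ∈ Aset
      · exact Or.inl h1
      · exact Or.inr ⟨h1, hv⟩
    have a2 : Pr Q {v | v ∉ Aset ∧ v ∈ G} ≤ Pr Q E0 +
        Pr Q {v | ∃ k, v ∈ {v | w k v ∈ E1 ∨ w k v ∈ E2 ∨ w k v ∈ E3}} := by
      refine Pr_or hQ0 fun v _ hv => ?_
      by_cases h1 : v ∈ E0
      · exact Or.inl h1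
      · right
        by_contra h2
        apply hv.1
        refine ⟨hv.2, h1, fun k => ?_⟩
        simp only [Set.mem_ofPred_eq, not_exists, not_or] at h2
        exact h2 k
    have a3 : ∀ k : Fin c, Pr Q {v | w k v ∈ E1 ∨ w k v ∈ E2 ∨ w k v ∈ E3} ≤
        Pr d.P E1 + (Pr d.P E2 + Pr d.P E3) := by
      intro k
      have b1 := Pr_law (hS.lw k) E1
      have b2 := Pr_law (hS.lw k) E2
      have b3 := Pr_law (hS.lw k) E3
      rw [← b1, ← b2, ← b3]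
      refine le_trans (Pr_or (B := {v | w k v ∈ E1}) (C := {v | w k v ∈ E2 ∨ w k v ∈ E3}) hQ0
        fun v _ hv => hv) (add_le_add_right (Pr_or hQ0 fun v _ hv => hv) _)
    have a4 := Pr_iU hQ0 (fun k : Fin c => {v | w k v ∈ E1 ∨ w k v ∈ E2 ∨ w k v ∈ E3})
    have a5 : ∑ k : Fin c, Pr Q {v | w k v ∈ E1 ∨ w k v ∈ E2 ∨ w k v ∈ E3} ≤
        c * (3 * (q₀ / (8 * ((c : ℝ) + 1)))) := by
      refine le_trans (Finset.sum_le_sum fun k _ => le_trans (a3 k)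
        (show _ ≤ 3 * (q₀ / (8 * ((c : ℝ) + 1))) by linarith)) ?_
      rw [Finset.sum_const, Finset.card_univ, Fintype.card_fin, nsmul_eq_mul]
    have a6 : q₀ / (8 * ((c : ℝ) + 1)) + c * (3 * (q₀ / (8 * ((c : ℝ) + 1)))) ≤ q₀ / 2 := by
      have h1 : q₀ / (8 * ((c : ℝ) + 1)) * (8 * ((c : ℝ) + 1)) = q₀ :=
        div_mul_cancel₀ _ (by positivity)
      set t := q₀ / (8 * ((c : ℝ) + 1))
      have h2 : 0 ≤ t * c := by positivity
      nlinarith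
    linarith
  -- the means
  have hW : (0 : ℝ) < (2 : ℝ) ^ (c * d.X) := by positivity
  have hmean := mean_le (Q := Q) (I := Finset.Ico b (2 * b))
    (I' := Finset.Ico (r₁ + A + kmax) (d.X - (r₁ + A + kmax)))
    (lw := lw d Q w₀ ρ (Mx d kmax) kz K D₀) (W := (2 : ℝ) ^ (c * d.X)) hQ0 hW
    (Finset.Ico_subset_Ico (by omega) (by omega)) hnpos
    (t := q₀ * e * u / (64 * ((c : ℝ) + 1)) * d.X)
    (fun k i j v r u => fl (d.pk (n + i) (w k v)) (d.pk (n + j) (w k v))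
      (Bad d (Mx d kmax (xr d w₀ ρ v)) kz g k₇ c₁ r (w k v) (phi d C Q w₀ ρ (Mx d kmax) v r u)))
    (fun k j v r u => ms (d.pk (n + j) (w k v))
      (fun a => Bad d (Mx d kmax (xr d w₀ ρ v)) kz g k₇ c₁ r (w k v)
        (phi d C Q w₀ ρ (Mx d kmax) v r u) (ρ k v) a))
    (fun k j v r u => ms (d.pk (n + j) (w k v))
      (fun a => Bad d (Mx d kmax (xr d w₀ ρ v)) kz g k₇ c₁ r (w k v)
        (phi d C Q w₀ ρ (Mx d kmax) v r u) a (ρ k v)))
    (fun k i j v r u => fl_nonneg (pk_nonneg hok.law.nonneg _) (pk_nonneg hok.law.nonneg _) _)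
    (fun k j v r u => ms_nonneg (pk_nonneg hok.law.nonneg _) _)
    (fun k j v r u => ms_nonneg (pk_nonneg hok.law.nonneg _) _)
    (fun k i j => (hRd k (n + i) (n + j)).1) (fun k j => (hRd k n (n + j)).2.1)
    (fun k j => (hRd k n (n + j)).2.2)
  have hbR : (0 : ℝ) ≤ b := Nat.cast_nonneg _
  obtain ⟨v, r, uu, hv, hvA, hr, hlw, hle⟩ := sel hQ0 hW (A := Aset) (p := q₀ / 2)
    (b := u * b) (e := e) (by
      intro v r u
      refine Finset.sum_nonneg fun k _ => ?_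
      have s1 : 0 ≤ ∑ i ∈ range n, ∑ j ∈ range n, fl (d.pk (n + i) (w k v))
          (d.pk (n + j) (w k v)) (Bad d (Mx d kmax (xr d w₀ ρ v)) kz g k₇ c₁ r (w k v)
            (phi d C Q w₀ ρ (Mx d kmax) v r u)) :=
        Finset.sum_nonneg fun i _ => Finset.sum_nonneg fun j _ =>
          fl_nonneg (pk_nonneg hok.law.nonneg _) (pk_nonneg hok.law.nonneg _) _
      have s2 : 0 ≤ ∑ j ∈ range n, ms (d.pk (n + j) (w k v))
          (fun a => Bad d (Mx d kmax (xr d w₀ ρ v)) kz g k₇ c₁ r (w k v)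
            (phi d C Q w₀ ρ (Mx d kmax) v r u) (ρ k v) a) :=
        Finset.sum_nonneg fun j _ => ms_nonneg (pk_nonneg hok.law.nonneg _) _
      have s3 : 0 ≤ ∑ j ∈ range n, ms (d.pk (n + j) (w k v))
          (fun a => Bad d (Mx d kmax (xr d w₀ ρ v)) kz g k₇ c₁ r (w k v)
            (phi d C Q w₀ ρ (Mx d kmax) v r u) a (ρ k v)) :=
        Finset.sum_nonneg fun j _ => ms_nonneg (pk_nonneg hok.law.nonneg _) _
      positivity) hAset (by
      intro v _ hvA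
      have h1 : v ∉ E0 := hvA.2.1
      rw [hE0] at h1
      simp only [Set.mem_ofPred_eq, not_exists, not_and, not_lt] at h1
      have h2 := h1 1 (by omega)
      rw [one_mul, show (1 + 1) * b = 2 * b by ring] at h2
      exact h2) hmean (by
      have h1 : q₀ * e * u / (64 * ((c : ℝ) + 1)) * (64 * ((c : ℝ) + 1)) = q₀ * e * u :=
        div_mul_cancel₀ _ (by positivity)
      set t := q₀ * e * u / (64 * ((c : ℝ) + 1)) with ht
      have ht0 : 0 < t := by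
        rw [ht]
        positivity
      have h2 : q₀ / 2 * (e * (u * ((d.X : ℝ) / 8))) ≤ q₀ / 2 * (e * (u * b)) := by
        gcongr
      have h3 : q₀ / 2 * (e * (u * ((d.X : ℝ) / 8))) = t * (64 * ((c : ℝ) + 1)) * d.X / 16 := by
        rw [h1]
        ring
      have h4 : 0 ≤ t * c * d.X := by positivity
      have h5 : 0 < t * d.X := by positivity
      nlinarith) (by positivity) he0.le
  obtain ⟨hvG, hv0, hvk⟩ := hvA
  have hN₁n : (N₁ : ℝ) ≤ n := by exact_mod_cast z1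
  have hN₁1 : 4 * ((R₀ + kz + g + 4 : ℕ) : ℝ) / δ ≤ N₁ := by
    refine le_trans (Nat.le_ceil _) ?_
    exact_mod_cast (by omega : ⌈4 * ((R₀ + kz + g + 4 : ℕ) : ℝ) / δ⌉₊ ≤ N₁)
  have hN₁2 : 8 * ((R₀ + kz + g + 4 : ℕ) : ℝ) / c₂ ≤ N₁ := by
    refine le_trans (Nat.le_ceil _) ?_
    exact_mod_cast (by omega : ⌈8 * ((R₀ + kz + g + 4 : ℕ) : ℝ) / c₂⌉₊ ≤ N₁)
  rw [div_le_iff₀ hδ] at hN₁1
  rw [div_le_iff₀ hc₂] at hN₁2
  have htot := total_le hnpos (e := e)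
    (fun k i j => fl (d.pk (n + i) (w k v)) (d.pk (n + j) (w k v))
      (Bad d (Mx d kmax (xr d w₀ ρ v)) kz g k₇ c₁ r (w k v) (phi d C Q w₀ ρ (Mx d kmax) v r uu)))
    (fun k j => ms (d.pk (n + j) (w k v))
      (fun a => Bad d (Mx d kmax (xr d w₀ ρ v)) kz g k₇ c₁ r (w k v)
        (phi d C Q w₀ ρ (Mx d kmax) v r uu) (ρ k v) a))
    (fun k j => ms (d.pk (n + j) (w k v))
      (fun a => Bad d (Mx d kmax (xr d w₀ ρ v)) kz g k₇ c₁ r (w k v)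
        (phi d C Q w₀ ρ (Mx d kmax) v r uu) a (ρ k v)))
    (fun k i j => fl_nonneg (pk_nonneg hok.law.nonneg _) (pk_nonneg hok.law.nonneg _) _)
    (fun k j => ms_nonneg (pk_nonneg hok.law.nonneg _) _)
    (fun k j => ms_nonneg (pk_nonneg hok.law.nonneg _) _) hle
  rw [Finset.mem_Ico] at hr
  refine one_tripleM (n := n) (m := m) (δc := δc) (R₀ := R₀) (kz := kz) (g := g) (k₇ := k₇) (r := r) (q := q) (h := h)
    (n0 := n0) (dd := e) (c₁ := c₁) (c₂ := c₂) (C₁ := C₁) (δ := δ) (e := e) (K := K) (D₀ := D₀)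
    (C := C) (v := v) (u := uu) hok hS hCU hv hvG
    (fun m' hm' P φ ε F h0 h1 h2 h3 h4 h5 => hO m' hm' d.Om ℝ P φ ε F h0 h1 h2 h3 h4 h5) hm
    (by omega) hnpos hc₂ z2 z3 ?_ (by omega) (by omega) ?_ ?_ (fun k => (htot k).1)
    (fun k => (htot k).2.1) (fun k => (htot k).2.2) le_rfl he1 he2 he0.le ?_ ?_ hg
  · intro k i hi
    have h1 := (hvk k).1
    rw [hE1] at h1
    simp only [Set.mem_ofPred_eq, not_exists, not_and, not_lt] at h1
    exact h1 i hi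
  · intro k
    have h1 := (hvk k).2.1
    rw [hE2] at h1
    simp only [Set.mem_ofPred_eq, not_lt] at h1
    exact h1
  · intro k
    have h1 := (hvk k).2.2
    rw [hE3] at h1
    simp only [Set.mem_ofPred_eq, not_lt] at h1
    exact h1
  · nlinarith
  · nlinarith

end Pool.OCV
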