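import Pool.Agent.H98.OCL.Rela2
import Pool.Agent.H86.OCV.Rela3

/-!
# OCL: RELA from REL (live times)
-/

set_option autoImplicit false

namespace Pool.OCV

open Finset Real
open Pool.Agent.H49.Ent Pool.Agent.H32.Dense Pool.STK Pool.KAF
open Pool.OCM Line
open Pool.OC (sc)

/-- **RELA from REL.** -/
theorem relal_of (c : ℕ) : RELStmt c → RELALStmt c := by
  classical
  intro hREL k₇ kz g c₁ ε hc₁ hε
  obtain ⟨D₀, hD₀⟩ := hREL k₇ kz g c₁ ε hc₁ hε
  refine ⟨D₀, fun D hD K => ?_⟩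
  obtain ⟨r₁, δ, C, hδ, hC, hrel⟩ := hD₀ D hD K
  refine ⟨r₁, δ / 3, C, by positivity, hC, ?_⟩
  intro A kmax d hOK h1 h2 h3 R _ Q w₀ w ρ M hS hM k i j
  have hX : (0 : ℝ) ≤ d.X := Nat.cast_nonneg _
  have hle : δ / 3 * d.X ≤ δ * d.X := mul_le_mul_of_nonneg_right (by linarith) hX
  have h2' : d.H2 δ := by
    unfold Dat.H2 at h2 ⊢
    exact h2.trans hle
  have h3' : d.H3 δ := by
    unfold Dat.H3 at h3 ⊢
    exact h3.trans hle
  have hRB : RB c k₇ kz g K r₁ c₁ ε D δ C A kmax d := hrel A kmax d hOK h2' h3'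
  have hP := hOK.law
  have hQ := hS.law
  have hQ0 := hQ.nonneg
  have mk : Marg Q d.P (w k) := fun ω => hS.lw k ω
  have mr : Marg Q d.P (ρ k) := fun ω => hS.lr k ω
  have core := fun (i j : ℕ) (wm wp : (R × d.Om) × d.Om → d.Om) lm lp hL hTm hTp =>
    relal_core hOK hRB hS h1 (by linarith) (by linarith) hM k i j wm wp lm lp hL hTm hTp
  have hwk : ∀ v, 0 < Q v → 0 < d.P (w k v) := fun v hv => mk.pos hQ0 hv
  have hpk : ∀ (v : R) (i : ℕ), 0 < Q v → ∑ a, d.pk i (w k v) a = 1 := fun v i hv =>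
    (pk_law hP (hwk v hv) i).sum_one
  -- the marginals of the extended space
  have m1 : ∀ i j, Marg (ex2 d Q (w k) i j) d.P (fun z => z.1.2) := fun i j =>
    (ex2_fst hQ hP mk).comp (ex1_snd hP mk)
  have m2 : ∀ i j, Marg (ex2 d Q (w k) i j) d.P (fun z => z.2) := fun i j => ex2_snd hQ hP mk
  have m3 : ∀ i j, Marg (ex2 d Q (w k) i j) d.P (fun z => ρ k z.1.1) := fun i j =>
    (ex2_R hQ hP mk).comp mr
  have mR : ∀ i j, Marg (ex2 d Q (w k) i j) Q (fun z => z.1.1) := fun i j => ex2_R hQ hP mk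
  have hnn : ∀ i j (z : (R × d.Om) × d.Om), 0 ≤ ex2 d Q (w k) i j z := fun i j =>
    (ex2_law hQ hP mk).nonneg
  have t1 : ∀ i j, Det (ex2 d Q (w k) i j) (fun z => ((xr d w₀ ρ z.1.1, d.T z.1.2), d.T z.2))
      (fun z => d.T z.1.2) := fun i j z z' a b h =>
    (Prod.ext_iff.mp (Prod.ext_iff.mp h).1).2
  have t2 : ∀ i j, Det (ex2 d Q (w k) i j) (fun z => ((xr d w₀ ρ z.1.1, d.T z.1.2), d.T z.2))
      (fun z => d.T z.2) := fun i j z z' a b h => (Prod.ext_iff.mp h).2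
  have t3 : ∀ i j, Det (ex2 d Q (w k) i j) (fun z => ((xr d w₀ ρ z.1.1, d.T z.1.2), d.T z.2))
      (fun z => d.T (ρ k z.1.1)) := by
    intro i j z z' a b h
    have h1 := (Prod.ext_iff.mp (Prod.ext_iff.mp h).1).1
    exact congrFun (Prod.ext_iff.mp h1).2 k
  have l3 : ∀ i j (z : (R × d.Om) × d.Om), 0 < ex2 d Q (w k) i j z →
      d.L (ρ k z.1.1) = d.L (w k z.1.1) := fun i j z hz =>
    hS.ln z.1.1 ((mR i j).pos (hnn i j) hz) k
  refine ⟨?_, ?_, ?_⟩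
  · have h := core i j (fun z => z.1.2) (fun z => z.2) (m1 i j) (m2 i j)
      (fun z hz => ex2_line hQ hP mk hz) (t1 i j) (t2 i j)
    refine le_trans (le_of_eq ?_) h
    refine mn_congr d hQ0 w₀ ρ M kz K D _ fun v hv r u => ?_
    rw [fl_eq]
  · have h := core j j (fun z => ρ k z.1.1) (fun z => z.2) (m3 j j) (m2 j j)
      (fun z hz => ⟨l3 j j z hz, (ex2_line hQ hP mk hz).2⟩) (t3 j j) (t2 j j)
    refine le_trans (le_of_eq ?_) h
    refine mn_congr d hQ0 w₀ ρ M kz K D _ fun v hv r u => ?_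
    rw [ms_eq (hpk v j hv)]
  · have h := core j j (fun z => z.2) (fun z => ρ k z.1.1) (m2 j j) (m3 j j)
      (fun z hz => ⟨(ex2_line hQ hP mk hz).2, l3 j j z hz⟩) (t2 j j) (t3 j j)
    refine le_trans (le_of_eq ?_) h
    refine mn_congr d hQ0 w₀ ρ M kz K D _ fun v hv r u => ?_
    rw [ms_eq (hpk v j hv)]

end Pool.OCV
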