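import Pool.Agent.H98.OCL.Core3
import Pool.Agent.H98.OCL.Rela3
import Pool.Agent.H98.OCL.Act
import Pool.Agent.H6.OCV.NFR
import Pool.Agent.H17.OCM.RelF

/-!
# OCL: CORE for live times from ONE (general coupling) and T1
-/

set_option autoImplicit false

namespace Pool.OCV

/-- **CORE**, live times. -/
theorem corel_of (c : ℕ) (hc : 0 < c) (hT : T1Stmt c) (hO : OneMStmt.{0, 0}) : CORELStmt c :=
  corel_of' c (nfr_thm c) (Pool.OCV.AC20.actrl_thm c) hT
    (relal_of c (Pool.OCV.M17.rel_fin hc)) hO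

end Pool.OCV
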